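import Pool.Agent.Y709.Ten.Stm

/-!
# Job 4799 (Ten-T1): tensor products of matrices

The reversed characteristic polynomial of a tensor product depends only on those of the factors (Silvester's formula for
determinants of block matrices with commuting blocks, `Matrix.det_det`), and elementary properties of `tens`.
-/

set_option autoImplicit false

open Polynomial

namespace Pool.Agent.Y737.Ten

open Pool.Agent.Y709.Ten

section basic

variable {ι : Type} [Fintype ι] {κ : ι → Type} {R : Type} [CommRing R]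

theorem tens_apply (A : ∀ j, Matrix (κ j) (κ j) R) (u v : ∀ j, κ j) :
    tens A u v = ∏ j, A j (u j) (v j) := rfl

theorem tens_mul [DecidableEq ι] [∀ j, Fintype (κ j)] (A B : ∀ j, Matrix (κ j) (κ j) R) :
    tens (fun j => A j * B j) = tens A * tens B := by
  ext u w
  rw [tens_apply, Matrix.mul_apply]
  simp only [Matrix.mul_apply, tens_apply]
  rw [Finset.prod_univ_sum, Fintype.piFinset_univ]
  exact Finset.sum_congr rfl fun v _ => Finset.prod_mul_distrib

theorem tens_one [∀ j, DecidableEq (κ j)] [DecidableEq (∀ j, κ j)] :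
    tens (fun j => (1 : Matrix (κ j) (κ j) R)) = 1 := by
  ext u v
  rw [tens_apply]
  by_cases h : u = v
  · subst h
    rw [Matrix.one_apply_eq]
    exact Finset.prod_eq_one fun j _ => Matrix.one_apply_eq _
  · rw [Matrix.one_apply_ne h]
    obtain ⟨j, hj⟩ := Function.ne_iff.1 h
    exact Finset.prod_eq_zero (Finset.mem_univ j) (Matrix.one_apply_ne hj)

theorem tens_pow [DecidableEq ι] [∀ j, Fintype (κ j)] [∀ j, DecidableEq (κ j)] [DecidableEq (∀ j, κ j)]
    (A : ∀ j, Matrix (κ j) (κ j) R) (n : ℕ) : tens (fun j => A j ^ n) = tens A ^ n := by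
  induction n with
  | zero =>
    simp only [pow_zero]
    exact tens_one
  | succ n ih =>
    rw [pow_succ, ← ih, ← tens_mul]
    simp only [pow_succ]

theorem tens_smul (c : ι → R) (A : ∀ j, Matrix (κ j) (κ j) R) :
    tens (fun j => c j • A j) = (∏ j, c j) • tens A := by
  ext u v
  rw [tens_apply, Matrix.smul_apply, tens_apply, smul_eq_mul, ← Finset.prod_mul_distrib]
  rfl

theorem tens_map {S : Type} [CommRing S] (f : R →+* S) (A : ∀ j, Matrix (κ j) (κ j) R) :
    (tens A).map f = tens (fun j => (A j).map f) := by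
  ext u v
  rw [Matrix.map_apply, tens_apply, tens_apply, map_prod]
  rfl

theorem tens_transpose (A : ∀ j, Matrix (κ j) (κ j) R) :
    (tens A).transpose = tens (fun j => (A j).transpose) := rfl

theorem trace_tens [DecidableEq ι] [∀ j, Fintype (κ j)] (A : ∀ j, Matrix (κ j) (κ j) R) :
    (tens A).trace = ∏ j, (A j).trace := by
  unfold Matrix.trace
  rw [Finset.prod_univ_sum, Fintype.piFinset_univ]
  rfl

theorem det_tens_ne [DecidableEq ι] [∀ j, Fintype (κ j)] [∀ j, DecidableEq (κ j)] [IsDomain R]
    (A : ∀ j, Matrix (κ j) (κ j) R) (h : ∀ j, (A j).det ≠ 0) : (tens A).det ≠ 0 := by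
  have h1 : tens A * tens (fun j => (A j).adjugate) = (∏ j, (A j).det) • (1 : Matrix (∀ j, κ j) (∀ j, κ j) R) := by
    rw [← tens_mul]
    simp only [Matrix.mul_adjugate]
    rw [tens_smul, tens_one]
  have h2 := congrArg Matrix.det h1
  rw [Matrix.det_mul, Matrix.det_smul, Matrix.det_one, mul_one] at h2
  intro h0
  rw [h0, zero_mul] at h2
  exact pow_ne_zero _ (Finset.prod_ne_zero_iff.2 fun j _ => h j) h2.symm

/-- change of the set of indices -/
theorem tens_reindex {ι' : Type} [Fintype ι'] (e : ι' ≃ ι) (A : ∀ j, Matrix (κ j) (κ j) R) :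
    tens (fun i => A (e i)) = (tens A).submatrix (Equiv.piCongrLeft κ e) (Equiv.piCongrLeft κ e) := by
  ext u v
  rw [tens_apply, Matrix.submatrix_apply, tens_apply, ← e.prod_comp]
  refine Finset.prod_congr rfl fun i _ => ?_
  rw [Equiv.piCongrLeft_apply_apply, Equiv.piCongrLeft_apply_apply]

end basic

section char

variable {R : Type} [CommRing R]

theorem charpolyRev_submatrix {a b : Type} [Fintype a] [Fintype b] [DecidableEq a] [DecidableEq b]
    (e : a ≃ b) (M : Matrix b b R) : (M.submatrix e e).charpolyRev = M.charpolyRev := by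
  unfold Matrix.charpolyRev
  rw [← Matrix.det_submatrix_equiv_self e (1 - (X : R[X]) • M.map C)]
  congr 1
  ext1 i j
  simp [Matrix.one_apply]

theorem charpolyRev_map {S : Type} [CommRing S] (f : R →+* S) {a : Type} [Fintype a] [DecidableEq a]
    (M : Matrix a a R) : (M.map f).charpolyRev = M.charpolyRev.map f := by
  unfold Matrix.charpolyRev
  rw [← coe_mapRingHom, RingHom.map_det]
  congr 1
  ext1 i j
  simp [Matrix.one_apply, apply_ite]

/-- the product of two matrices -/
def kr {a b : Type} (A : Matrix a a R) (B : Matrix b b R) : Matrix (a × b) (a × b) R :=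
  Matrix.of fun p q => A p.1 q.1 * B p.2 q.2

/-- Silvester's formula -/
theorem det_kr {T : Type} [CommRing T] {a b : Type} [Fintype a] [Fintype b] [DecidableEq a] [DecidableEq b]
    (A : Matrix a a T) (D : Matrix b b T) :
    (1 - kr A D).det = (aeval D A.charpolyRev).det := by
  let f : T[X] →+* Matrix b b T := (aeval D : T[X] →ₐ[T] Matrix b b T).toRingHom
  have h1 := Matrix.det_det (M := (1 - (X : T[X]) • A.map C)) f
  have h2 : (((1 - (X : T[X]) • A.map C).map f).comp a a b b T) = 1 - kr A D := by
    ext1 p q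
    rw [Matrix.comp_apply, Matrix.map_apply]
    have h3 : f ((1 - (X : T[X]) • A.map C) p.1 q.1) = (1 : Matrix a a T) p.1 q.1 • (1 : Matrix b b T) -
        A p.1 q.1 • D := by
      rw [Matrix.sub_apply, Matrix.smul_apply, Matrix.map_apply, map_sub, smul_eq_mul, map_mul]
      have h4 : f X = D := aeval_X D
      have h5 : f (C (A p.1 q.1)) = A p.1 q.1 • (1 : Matrix b b T) := by
        change aeval D (C (A p.1 q.1)) = _
        rw [aeval_C, Algebra.algebraMap_eq_smul_one]
      rw [h4, h5, mul_smul_comm, mul_one]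
      congr 1
      by_cases h : p.1 = q.1
      · rw [h, Matrix.one_apply_eq, Matrix.one_apply_eq, map_one, one_smul]
      · rw [Matrix.one_apply_ne h, Matrix.one_apply_ne h, map_zero, zero_smul]
    rw [h3, Matrix.sub_apply, Matrix.smul_apply, Matrix.smul_apply, Matrix.sub_apply]
    obtain ⟨i, k⟩ := p
    obtain ⟨j, l⟩ := q
    simp only [smul_eq_mul, kr, Matrix.of_apply, Matrix.one_apply, Prod.mk.injEq]
    split_ifs <;> simp_all
  rw [← h2, ← h1]
  rfl

/-- the dependence on the first factor -/
theorem charpolyRev_kr {a b : Type} [Fintype a] [Fintype b] [DecidableEq a] [DecidableEq b]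
    (A : Matrix a a R) (B : Matrix b b R) (c : R) : (c • kr A B).charpolyRev =
      (aeval ((C c * X : R[X]) • B.map C) (A.charpolyRev.map (C : R →+* R[X]))).det := by
  rw [← charpolyRev_map, ← det_kr]
  unfold Matrix.charpolyRev
  congr 2
  ext1 p q
  simp only [Matrix.smul_apply, Matrix.map_apply, kr, Matrix.of_apply, smul_eq_mul, map_mul]
  ring

theorem kr_left {a a' b : Type} [Fintype a] [Fintype a'] [Fintype b] [DecidableEq a] [DecidableEq a']
    [DecidableEq b] (A : Matrix a a R) (A' : Matrix a' a' R) (B : Matrix b b R) (c : R)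
    (h : A.charpolyRev = A'.charpolyRev) : (c • kr A B).charpolyRev = (c • kr A' B).charpolyRev := by
  rw [charpolyRev_kr, charpolyRev_kr, h]

theorem kr_swap {a b : Type} [Fintype a] [Fintype b] [DecidableEq a] [DecidableEq b]
    (A : Matrix a a R) (B : Matrix b b R) (c : R) :
    (c • kr A B).charpolyRev = (c • kr B A).charpolyRev := by
  rw [← charpolyRev_submatrix (Equiv.prodComm a b)]
  congr 1
  ext1 p q
  simp only [Matrix.submatrix_apply, Matrix.smul_apply, kr, Matrix.of_apply, Equiv.prodComm_apply, Prod.fst_swap,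
    Prod.snd_swap, mul_comm]

theorem kr_right {a b b' : Type} [Fintype a] [Fintype b] [Fintype b'] [DecidableEq a] [DecidableEq b]
    [DecidableEq b'] (A : Matrix a a R) (B : Matrix b b R) (B' : Matrix b' b' R) (c : R)
    (h : B.charpolyRev = B'.charpolyRev) : (c • kr A B).charpolyRev = (c • kr A B').charpolyRev := by
  rw [kr_swap, kr_swap A B', kr_left B B' A c h]

/-- splitting the first factor -/
theorem tens_succ {n : ℕ} {κ : Fin (n + 1) → Type} (A : ∀ j, Matrix (κ j) (κ j) R) :
    kr (A 0) (tens fun j : Fin n => A j.succ) =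
      (tens A).submatrix (Fin.consEquiv κ) (Fin.consEquiv κ) := by
  ext1 p q
  rw [Matrix.submatrix_apply]
  unfold tens kr
  simp only [Matrix.of_apply]
  rw [Fin.prod_univ_succ]
  rfl

theorem tens_fin (n : ℕ) : ∀ (κ κ' : Fin n → Type) [∀ j, Fintype (κ j)] [∀ j, DecidableEq (κ j)]
    [∀ j, Fintype (κ' j)] [∀ j, DecidableEq (κ' j)] (A : ∀ j, Matrix (κ j) (κ j) R)
    (B : ∀ j, Matrix (κ' j) (κ' j) R) (c : R), (∀ j, (A j).charpolyRev = (B j).charpolyRev) →
    (c • tens A).charpolyRev = (c • tens B).charpolyRev := by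
  induction n with
  | zero =>
    intro κ κ' _ _ _ _ A B c _
    let e : (∀ j, κ j) ≃ (∀ j, κ' j) := ⟨fun _ j => j.elim0, fun _ j => j.elim0, fun _ => funext fun j => j.elim0,
      fun _ => funext fun j => j.elim0⟩
    rw [← charpolyRev_submatrix e]
    congr 1
  | succ n ih =>
    intro κ κ' _ _ _ _ A B c h
    have h1 : ∀ (κ : Fin (n + 1) → Type) [∀ j, Fintype (κ j)] [∀ j, DecidableEq (κ j)]
        (A : ∀ j, Matrix (κ j) (κ j) R),
        (c • tens A).charpolyRev = (c • kr (A 0) (tens fun j : Fin n => A j.succ)).charpolyRev := by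
      intro κ _ _ A
      rw [tens_succ]
      exact (charpolyRev_submatrix (Fin.consEquiv κ) (c • tens A)).symm
    rw [h1 κ A, h1 κ' B, kr_left (A 0) (B 0) _ c (h 0)]
    refine kr_right _ _ _ c ?_
    have h2 := ih (fun j => κ j.succ) (fun j => κ' j.succ) (fun j => A j.succ) (fun j => B j.succ) 1
      (fun j => h j.succ)
    rwa [one_smul, one_smul] at h2

end char

theorem tensCharpoly : TensCharpoly := by
  intro R _ ι _ _ κ κ' _ _ _ _ A B c h
  let e : Fin (Fintype.card ι) ≃ ι := (Fintype.equivFin ι).symm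
  have h1 : ∀ (κ : ι → Type) [∀ j, Fintype (κ j)] [∀ j, DecidableEq (κ j)] (A : ∀ j, Matrix (κ j) (κ j) R),
      (c • tens A).charpolyRev = (c • tens fun i => A (e i)).charpolyRev := by
    intro κ _ _ A
    rw [tens_reindex e A]
    exact (charpolyRev_submatrix (Equiv.piCongrLeft κ e) (c • tens A)).symm
  rw [h1 κ A, h1 κ' B]
  exact tens_fin _ _ _ _ _ c fun i => h (e i)

end Pool.Agent.Y737.Ten
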